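import Pool.Agent.helper87.AU.SpecQ1

/-!
Project au, module QR1: dimensions of Riemann-Roch spaces.
-/

namespace Pool.Agent.helper53.AU

open scoped Classical IntermediateField
open Polynomial (aeval)

noncomputable section

variable {k F : Type} [Field k] [Field F] [Algebra k F]

theorem QR1_mem {D : Place k F →₀ ℤ} {f : F} : f ∈ RR D ↔ ∀ P : Place k F, P.Ge (-D P) f := by
  constructor
  · intro h P
    rcases h with h | h
    · exact Or.inl h
    · exact Or.inr (h P)
  · intro h
    by_cases hf : f = 0
    · exact Or.inl hf
    · exact Or.inr fun P => (h P).le hf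

theorem QR1_mono {D D' : Place k F →₀ ℤ} (h : D ≤ D') : RR D ≤ RR D' := by
  intro f hf
  rw [QR1_mem] at hf ⊢
  intro P
  have := h P
  exact (hf P).mono (by omega)

theorem QR1_degD_add (D E : Place k F →₀ ℤ) : degD (D + E) = degD D + degD E := by
  unfold degD
  exact Finsupp.sum_add_index' (fun _ => rfl) (fun _ _ _ => rfl)

theorem QR1_degD_single (P : Place k F) (n : ℤ) : degD (Finsupp.single P n) = n := by
  unfold degD
  exact Finsupp.sum_single_index rfl

theorem QR1_degD_nonneg {E : Place k F →₀ ℤ} (h : 0 ≤ E) : 0 ≤ degD E := by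
  unfold degD Finsupp.sum
  exact Finset.sum_nonneg fun P _ => h P

/-- adding one point -/
theorem QR1_step (hV1 : QV1_stmt) [IsAlgClosed k] (hF : IsFF k F) (D : Place k F →₀ ℤ)
    (P : Place k F) [FiniteDimensional k (RR D)] :
    FiniteDimensional k (RR (D + Finsupp.single P 1)) ∧
      ell (D + Finsupp.single P 1) ≤ ell D + 1 := by
  have hle : D ≤ D + Finsupp.single P 1 := by
    intro Q
    rw [Finsupp.add_apply, Finsupp.single_apply]
    split_ifs <;> omega
  by_cases heq : RR (D + Finsupp.single P 1) ≤ RR D
  · have h1 : RR (D + Finsupp.single P 1) = RR D := le_antisymm heq (QR1_mono hle)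
    refine ⟨by rw [h1]; infer_instance, ?_⟩
    unfold ell
    rw [h1]
    omega
  · rw [SetLike.not_le_iff_exists] at heq
    obtain ⟨h, hh, hnh⟩ := heq
    have hh' := QR1_mem.1 hh
    have hh0 : h ≠ 0 := by
      rintro rfl
      exact hnh (zero_mem _)
    have hord : P.ord h = -(D P + 1) := by
      have h1 : ∃ Q : Place k F, ¬ Q.Ge (-D Q) h := by
        by_contra hall
        push Not at hall
        exact hnh (QR1_mem.2 hall)
      obtain ⟨Q, hQ⟩ := h1
      have h2 := (hh' Q).le hh0
      rw [Place.ge_iff hh0] at hQ
      rw [Finsupp.add_apply, Finsupp.single_apply] at h2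
      by_cases hPQ : P = Q
      · subst hPQ
        rw [if_pos rfl] at h2
        omega
      · rw [if_neg hPQ] at h2
        omega
    have hsup : RR (D + Finsupp.single P 1) ≤ RR D ⊔ Submodule.span k {h} := by
      intro f hf
      have hf' := QR1_mem.1 hf
      have h1 : P.Ge 0 (f / h) := by
        by_cases hf0 : f = 0
        · left; rw [hf0, zero_div]
        · right
          have h2 := (hf' P).le hf0
          rw [Finsupp.add_apply, Finsupp.single_eq_same] at h2
          rw [P.ord_div hf0 hh0, hord]
          omega
      obtain ⟨c, hc⟩ := hV1 k F hF P (f / h) h1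
      have h3 : f - algebraMap k F c * h ∈ RR D := by
        rw [QR1_mem]
        intro Q
        by_cases hPQ : P = Q
        · subst hPQ
          have h4 : P.Ge (-(D P + 1)) h := Or.inr hord.ge
          have h5 := h4.mul hc
          have h6 : h * (f / h - algebraMap k F c) = f - algebraMap k F c * h := by
            field_simp
          rw [h6] at h5
          exact h5.mono (by omega)
        · have h7 : Q.Ge (-((D + Finsupp.single P 1 : Place k F →₀ ℤ) Q)) (f - algebraMap k F c * h) :=
            (hf' Q).sub ((hh' Q).const_mul c)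
          rw [Finsupp.add_apply, Finsupp.single_apply, if_neg hPQ, add_zero] at h7
          exact h7
      have h8 : f = (f - algebraMap k F c * h) + c • h := by
        rw [Algebra.smul_def]; ring
      rw [h8]
      exact Submodule.add_mem_sup h3 (Submodule.smul_mem _ _ (Submodule.mem_span_singleton_self h))
    have hfd : FiniteDimensional k (RR D ⊔ Submodule.span k {h} : Submodule k F) :=
      Submodule.finiteDimensional_sup _ _
    refine ⟨Submodule.finiteDimensional_of_le hsup, ?_⟩
    unfold ell
    calc Module.finrank k (RR (D + Finsupp.single P 1))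
        ≤ Module.finrank k (RR D ⊔ Submodule.span k {h} : Submodule k F) :=
          Submodule.finrank_mono hsup
      _ ≤ Module.finrank k (RR D) + Module.finrank k (Submodule.span k {h} : Submodule k F) :=
          Submodule.finrank_add_le_finrank_add_finrank _ _
      _ = Module.finrank k (RR D) + 1 := by rw [finrank_span_singleton hh0]

theorem QR1_up (hV1 : QV1_stmt) [IsAlgClosed k] (hF : IsFF k F) : ∀ (n : ℕ)
    (D D' : Place k F →₀ ℤ), D ≤ D' → degD D' - degD D = n → FiniteDimensional k (RR D) →
    FiniteDimensional k (RR D') ∧ ell D' ≤ ell D + n := by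
  intro n
  induction n with
  | zero =>
    intro D D' hDD hn hfd
    have h1 : D = D' := by
      have h2 : 0 ≤ D' - D := by
        intro P
        have := hDD P
        rw [Finsupp.sub_apply]
        show (0 : ℤ) ≤ _
        omega
      have h3 : degD (D' - D) = 0 := by
        have h4 : D' = D + (D' - D) := by abel
        have h5 := QR1_degD_add D (D' - D)
        rw [← h4] at h5
        push_cast at hn
        omega
      ext P
      by_contra hne
      have h6 : P ∈ (D' - D).support := by
        rw [Finsupp.mem_support_iff, Finsupp.sub_apply]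
        intro h7
        apply hne
        omega
      have h8 : (D' - D) P ≤ degD (D' - D) := by
        unfold degD Finsupp.sum
        exact Finset.single_le_sum (f := fun Q => (D' - D) Q) (fun Q _ => h2 Q) h6
      have h9 : (D' - D) P ≠ 0 := Finsupp.mem_support_iff.1 h6
      have h10 : (0 : ℤ) ≤ (D' - D) P := h2 P
      omega
    subst h1
    exact ⟨hfd, by omega⟩
  | succ n ih =>
    intro D D' hDD hn hfd
    have h1 : ∃ P, D P < D' P := by
      by_contra hall
      push Not at hall
      have h2 : D = D' := le_antisymm hDD hall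
      rw [h2] at hn
      push_cast at hn
      omega
    obtain ⟨P, hP⟩ := h1
    obtain ⟨h3, h4⟩ := QR1_step hV1 hF D P
    have h5 : D + Finsupp.single P 1 ≤ D' := by
      intro Q
      rw [Finsupp.add_apply, Finsupp.single_apply]
      have := hDD Q
      split_ifs with h
      · subst h; omega
      · omega
    have h6 : degD D' - degD (D + Finsupp.single P 1) = n := by
      rw [QR1_degD_add, QR1_degD_single]
      push_cast at hn
      omega
    obtain ⟨h7, h8⟩ := ih (D + Finsupp.single P 1) D' h5 h6 h3
    exact ⟨h7, by omega⟩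

theorem QR1 (hV0 : QV0_stmt) (hV1 : QV1_stmt) : QR1_stmt := by
  intro k F _ _ _ _ hF
  have h0 : RR (0 : Place k F →₀ ℤ) = Submodule.span k {(1 : F)} := by
    ext f
    rw [Submodule.mem_span_singleton, QR1_mem]
    constructor
    · intro h
      obtain ⟨c, hc⟩ := hV0 k F hF f (fun P => by simpa using h P)
      exact ⟨c, by rw [hc, Algebra.smul_def, mul_one]⟩
    · rintro ⟨c, rfl⟩ P
      rw [Algebra.smul_def, mul_one]
      simpa using P.ge_const c
  have hfd0 : FiniteDimensional k (RR (0 : Place k F →₀ ℤ)) := by
    rw [h0]; infer_instance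
  have hnn : ∀ D D' : Place k F →₀ ℤ, D ≤ D' → ∃ n : ℕ, degD D' - degD D = n := by
    intro D D' h
    have h2 : 0 ≤ D' - D := by
      intro P
      have := h P
      rw [Finsupp.sub_apply]
      show (0 : ℤ) ≤ _
      omega
    have h4 : D' = D + (D' - D) := by abel
    have h5 := QR1_degD_add D (D' - D)
    rw [← h4] at h5
    have h6 := QR1_degD_nonneg h2
    exact ⟨(degD (D' - D)).toNat, by rw [Int.toNat_of_nonneg h6]; omega⟩
  have hfd : ∀ D : Place k F →₀ ℤ, FiniteDimensional k (RR D) := by
    intro D
    have h1 : (0 : Place k F →₀ ℤ) ≤ D ⊔ 0 := le_sup_right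
    obtain ⟨n, hn⟩ := hnn 0 (D ⊔ 0) h1
    have h2 := (QR1_up hV1 hF n 0 (D ⊔ 0) h1 hn hfd0).1
    exact Submodule.finiteDimensional_of_le (QR1_mono (le_sup_left : D ≤ D ⊔ 0))
  refine ⟨hfd, ?_, fun D D' hDD => ?_⟩
  · unfold ell
    rw [h0]
    exact finrank_span_singleton one_ne_zero
  · obtain ⟨n, hn⟩ := hnn D D' hDD
    have h1 := (QR1_up hV1 hF n D D' hDD hn (hfd D)).2
    have h2 := hfd D'
    refine ⟨Submodule.finrank_mono (QR1_mono hDD), ?_⟩
    rw [hn]
    exact_mod_cast h1

end

end Pool.Agent.helper53.AU
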