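import Pool.Agent.helper53.AU.SpecG3

/-!
Project au, module B5: arithmetic of case (b).
-/

namespace Pool.Agent.helper53.AU

theorem B5 : B5_stmt := by
  intro c b E hc hodd hE hb hcong
  obtain ⟨k, hk⟩ : ∃ k, c = k + 1 := ⟨c - 1, by omega⟩
  subst hk
  rw [Nat.add_sub_cancel] at hcong
  have h27 : 27 ≤ 3 ^ (k + 1) := by
    calc 27 = 3 ^ 3 := by norm_num
      _ ≤ 3 ^ (k + 1) := Nat.pow_le_pow_right (by norm_num) hc
  have hE7 : 7 ≤ E := by omega
  have hhalf : (3 ^ (k + 1) - 1) / 2 = 2 * E - 1 := by omega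
  rw [hhalf] at hb
  -- `E ∣ b + 3`
  have h1 : 3 ^ (k + 1) * b ≡ 3 [MOD E] := by
    have h2 := hcong.mul_left 3
    have h3 : 3 * (3 ^ k * b) = 3 ^ (k + 1) * b := by ring
    rw [h3] at h2
    simpa using h2
  have h4 : E ∣ b + 3 := by
    have h5 : 3 ^ (k + 1) * b + b ≡ 3 + b [MOD E] := h1.add_right b
    have h6 : 3 ^ (k + 1) * b + b = E * (4 * b) := by
      have : 3 ^ (k + 1) * b + b = (3 ^ (k + 1) + 1) * b := by ring
      rw [this, ← hE]; ring
    rw [h6] at h5
    have h7 : E * (4 * b) ≡ 0 [MOD E] := (Nat.modEq_zero_iff_dvd).2 (Dvd.intro _ rfl)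
    have h8 : 3 + b ≡ 0 [MOD E] := h5.symm.trans h7
    have h9 := (Nat.modEq_zero_iff_dvd).1 h8
    rwa [Nat.add_comm] at h9
  have hble : b ≤ 2 * E - 1 := Nat.le_of_dvd (by omega) hb
  obtain ⟨j, hj⟩ := h4
  have hj0 : j ≠ 0 := by
    rintro rfl
    omega
  have hj3 : j < 3 := by
    by_contra h
    have h10 : 3 ≤ j := by omega
    have h11 : E * 3 ≤ E * j := Nat.mul_le_mul_left E h10
    omega
  have hj12 : j = 1 ∨ j = 2 := by omega
  rcases hj12 with rfl | rfl
  · -- `b = E - 3`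
    have hbE : E = b + 3 := by omega
    have h12 : b ∣ 5 := by
      have h13 : 2 * E - 1 = b * 2 + 5 := by omega
      rw [h13] at hb
      exact (Nat.dvd_add_right (Dvd.intro _ rfl)).1 hb
    have h14 : b = 1 ∨ b = 5 := (Nat.dvd_prime (by norm_num)).1 h12
    rcases h14 with rfl | rfl
    · omega
    · have hE8 : E = 8 := by omega
      have h15 : 3 ^ (k + 1) = 31 := by omega
      have h16 : 3 ∣ 3 ^ (k + 1) := dvd_pow_self 3 (by omega)
      rw [h15] at h16
      norm_num at h16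
  · have h12 : b ∣ 2 := by
      have h13 : 2 * E - 1 = b * 1 + 2 := by omega
      rw [h13] at hb
      exact (Nat.dvd_add_right (Dvd.intro _ rfl)).1 hb
    have h14 : b ≤ 2 := Nat.le_of_dvd (by norm_num) h12
    omega

end Pool.Agent.helper53.AU
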