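import Pool.Agent.helper75.AU.SpecR2

/-!
Project au, module IGP: in Case I the image of `G_1` in `Perm Omega` is in the class PL.
-/

namespace Pool.Agent.helper75.AU

open scoped Classical
open Pool.Agent.helper53.AU MulAction

noncomputable section

section General

variable {G : Type} [Group G]

/-- the homomorphism from `G_1` onto its image -/
def IGP_f (G : Type) [Group G] : thr G →* ((thr G).map (ph G).rangeRestrict : Subgroup (ph G).range) :=
  (ph G).rangeRestrict.subgroupMap (thr G)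

theorem IGP_surj : Function.Surjective (IGP_f G) := MonoidHom.subgroupMap_surjective _ _

theorem IGP_smul (g : thr G) (S : Sylow 3 G) : IGP_f G g • S = (g : G) • S := rfl

theorem IGP_one_iff (g : thr G) : IGP_f G g = 1 ↔ ∀ S : Sylow 3 G, (g : G) • S = S := by
  constructor
  · intro h S
    rw [← IGP_smul, h, one_smul]
  · intro h
    apply Subtype.ext
    apply Subtype.ext
    ext S : 1
    exact h S

theorem IGP_ker (g : thr G) : IGP_f G g = 1 ↔ (g : G) ∈ K1 G := by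
  rw [IGP_one_iff]
  constructor
  · intro h
    refine ⟨?_, g.2⟩
    show (ph G) (g : G) = 1
    ext S : 1
    exact h S
  · rintro ⟨h, -⟩ S
    have h1 : (ph G) (g : G) = 1 := h
    have h2 := congrArg (fun p : Equiv.Perm (Sylow 3 G) => p S) h1
    exact h2

theorem IGP_normal : (thr G).Normal := by
  refine ⟨fun n hn g => ?_⟩
  have h1 : (thr G).map (MulAut.conj g).toMonoidHom ≤ thr G := by
    unfold thr
    rw [MonoidHom.map_closure, Subgroup.closure_le]
    rintro _ ⟨x, ⟨m, hm⟩, rfl⟩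
    refine Subgroup.subset_closure ⟨m, ?_⟩
    show ((MulAut.conj g) x) ^ (3 ^ m) = 1
    rw [← map_pow, hm, map_one]
  exact h1 ⟨n, hn, rfl⟩

theorem IGP_three : GenThree ((thr G).map (ph G).rangeRestrict : Subgroup (ph G).range) := by
  unfold GenThree
  rw [eq_top_iff]
  rintro y -
  obtain ⟨⟨g, hg⟩, rfl⟩ := IGP_surj y
  refine Subgroup.closure_induction (G := G) (k := {x : G | ∃ n : ℕ, x ^ (3 ^ n) = 1})
    (p := fun g (hg : g ∈ Subgroup.closure {x : G | ∃ n : ℕ, x ^ (3 ^ n) = 1}) =>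
      IGP_f G ⟨g, hg⟩ ∈ Subgroup.closure
        {x : ((thr G).map (ph G).rangeRestrict : Subgroup (ph G).range) | ∃ n : ℕ, x ^ (3 ^ n) = 1})
    ?_ ?_ ?_ ?_ hg
  · rintro x ⟨n, hn⟩
    refine Subgroup.subset_closure ⟨n, ?_⟩
    rw [← map_pow]
    have h1 : (⟨x, Subgroup.subset_closure ⟨n, hn⟩⟩ : thr G) ^ (3 ^ n) = 1 := by
      apply Subtype.ext
      exact hn
    rw [h1, map_one]
  · have h1 : IGP_f G ⟨1, one_mem _⟩ = 1 := map_one (IGP_f G)
    rw [h1]
    exact one_mem _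
  · intro x y hx hy h1 h2
    have h3 : IGP_f G ⟨x * y, mul_mem hx hy⟩ = IGP_f G ⟨x, hx⟩ * IGP_f G ⟨y, hy⟩ :=
      map_mul (IGP_f G) ⟨x, hx⟩ ⟨y, hy⟩
    rw [h3]
    exact mul_mem h1 h2
  · intro x hx h1
    have h3 : IGP_f G ⟨x⁻¹, inv_mem hx⟩ = (IGP_f G ⟨x, hx⟩)⁻¹ := map_inv (IGP_f G) ⟨x, hx⟩
    rw [h3]
    exact inv_mem h1

theorem IGP_noquot {L : Type} [Group L] (h : GenThree L) : NoQuot L := by
  intro N hN r n hr hr3 hidx
  rw [eq_top_iff, ← h, Subgroup.closure_le]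
  rintro x ⟨m, hm⟩
  have h1 : (QuotientGroup.mk x : L ⧸ N) ^ (3 ^ m) = 1 := by
    rw [← QuotientGroup.mk_pow, hm]; rfl
  have h2 : (QuotientGroup.mk x : L ⧸ N) ^ (r ^ n) = 1 := by
    rw [← hidx, Subgroup.index]
    exact pow_card_eq_one'
  have h3 : orderOf (QuotientGroup.mk x : L ⧸ N) = 1 := by
    have h4 := orderOf_dvd_of_pow_eq_one h1
    have h5 := orderOf_dvd_of_pow_eq_one h2
    have h6 : Nat.Coprime (3 ^ m) (r ^ n) := by
      refine Nat.Coprime.pow m n ?_
      rw [Nat.coprime_primes (by norm_num) hr]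
      exact hr3.symm
    exact Nat.eq_one_of_dvd_coprimes h6 h4 h5
  rw [orderOf_eq_one_iff] at h3
  exact (QuotientGroup.eq_one_iff x).1 h3

theorem IGP_conj {L Ω : Type} [Group L] [MulAction L Ω] (α : Ω) (l : L)
    (h : ThreeCyc (stabilizer L α)) : ThreeCyc (stabilizer L (l • α)) := by
  obtain ⟨P, c, hP, hc, hPg, hn, ho, hgen⟩ := h
  have hmem : ∀ y : L, y ∈ stabilizer L (l • α) → l⁻¹ * y * l ∈ stabilizer L α := by
    intro y hy
    rw [mem_stabilizer_iff] at hy ⊢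
    rw [mul_smul, mul_smul, hy, inv_smul_smul]
  have hmem' : ∀ y : L, y ∈ stabilizer L α → l * y * l⁻¹ ∈ stabilizer L (l • α) := by
    intro y hy
    rw [mem_stabilizer_iff] at hy ⊢
    rw [mul_smul, mul_smul, inv_smul_smul, hy]
  refine ⟨P.map (MulAut.conj l).toMonoidHom, l * c * l⁻¹, ?_, hmem' c hc, ?_, ?_, ?_, ?_⟩
  · rintro _ ⟨p, hp, rfl⟩
    exact hmem' p (hP hp)
  · exact hPg.map _
  · rintro y hy _ ⟨p, hp, rfl⟩
    refine ⟨(l⁻¹ * y * l) * p * (l⁻¹ * y * l)⁻¹, hn _ (hmem y hy) p hp, ?_⟩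
    show l * ((l⁻¹ * y * l) * p * (l⁻¹ * y * l)⁻¹) * l⁻¹ = y * (l * p * l⁻¹) * y⁻¹
    group
  · have h1 : orderOf (l * c * l⁻¹) = orderOf c := (MulAut.conj l).orderOf_eq c
    rw [h1]; exact ho
  · intro y hy
    obtain ⟨p, hp, n, he⟩ := hgen _ (hmem y hy)
    refine ⟨l * p * l⁻¹, ⟨p, hp, rfl⟩, n, ?_⟩
    have h1 : (l * c * l⁻¹) ^ n = l * c ^ n * l⁻¹ := conj_pow
    rw [h1]
    have h2 : y = l * (l⁻¹ * y * l) * l⁻¹ := by group
    rw [h2, he]
    group

end General

theorem IGP (hBA1 : BA1_stmt) (hBA2 : BA2_stmt) (hIV : IV_stmt) (hID : ID_stmt) : IGP_stmt := by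
  intro k G X _ _ _ _ _ _ l R x y c u h' e' u₁ hSp hSix hI
  obtain ⟨-, -, -, -, hK1card, -⟩ := hIV k G X l R x y c u h' e' u₁ hSp hSix hI
  obtain ⟨h4e, s, hs, hss, hsinv, hsne⟩ := hID k G X l R x y c u h' e' u₁ hSp hSix hI
  have hu1 := hI.u1
  subst hu1
  let L : Subgroup (ph G).range := (thr G).map (ph G).rangeRestrict
  let f : thr G →* L := IGP_f G
  have hfs : Function.Surjective f := IGP_surj
  have hfsm : ∀ (g : thr G) (S : Sylow 3 G), f g • S = (g : G) • S := IGP_smul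
  have hfker : ∀ g : thr G, f g = 1 ↔ (g : G) ∈ K1 G := IGP_ker
  have hfinL : Finite L := Finite.of_surjective f hfs
  have he0 : 0 < e' := hSix.num.pos.2.2.2
  have hcardΩ : Nat.card (Sylow 3 G) = e' := hSix.om
  -- the point `α0`
  obtain ⟨α0, hα0⟩ := hSix.two.syl
  obtain ⟨hPg, -, -, hPconj, hPnorm, -, -, h3h, ⟨mq, hmq⟩, -⟩ := hBA1 k G X (l + 1) R x
  -- `g • x = g' • x` determines the Sylow group
  have hsmulα : ∀ g : G, ((g • α0 : Sylow 3 G) : Subgroup G) = R.P (g • x) := by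
    intro g
    ext s
    have h1 := hPconj g (g⁻¹ * s * g)
    have h2 : g * (g⁻¹ * s * g) * g⁻¹ = s := by group
    rw [h2] at h1
    rw [h1, ← hα0, Sylow.coe_subgroup_smul, Subgroup.mem_pointwise_smul_iff_inv_smul_mem]
    have h3 : (MulAut.conj g)⁻¹ • s = g⁻¹ * s * g := by
      rw [← map_inv, MulAut.smul_def, MulAut.conj_apply, inv_inv]
    rw [h3]
  have htrans0 : ∀ α : Sylow 3 G, ∃ g : thr G, f g • α0 = α := by
    intro α
    obtain ⟨g, hg⟩ := MulAction.exists_smul_eq G α0 α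
    obtain ⟨b, hb, hbx⟩ := hSix.trx g
    refine ⟨⟨b, hb⟩, ?_⟩
    rw [hfsm]
    have h1 : ((b • α0 : Sylow 3 G) : Subgroup G) = (α : Subgroup G) := by
      rw [hsmulα b, hbx, ← hsmulα g, hg]
    exact Sylow.ext h1
  have htrans : MulAction.IsPretransitive L (Sylow 3 G) := by
    refine ⟨fun α β => ?_⟩
    obtain ⟨g, hg⟩ := htrans0 α
    obtain ⟨g', hg'⟩ := htrans0 β
    refine ⟨f g' * (f g)⁻¹, ?_⟩
    rw [← hg, mul_smul, inv_smul_smul, hg']
  -- cardinalities
  have hcardK : Nat.card f.ker = Nat.card (K1 G) := by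
    have hK1le : K1 G ≤ thr G := inf_le_right
    refine Nat.card_congr ⟨fun g => ⟨(g.1 : G), (hfker g.1).1 g.2⟩,
      fun g => ⟨⟨g.1, hK1le g.2⟩, (hfker ⟨g.1, hK1le g.2⟩).2 g.2⟩, fun _ => rfl, fun _ => rfl⟩
  have hcardL : Nat.card L * Nat.card (K1 G) = Nat.card (thr G) := by
    rw [← hcardK, ← Subgroup.card_mul_index f.ker, mul_comm, Subgroup.index_ker]
    congr 1
    rw [MonoidHom.range_eq_top.2 hfs]
    exact (Nat.card_congr Subgroup.topEquiv.toEquiv).symm
  set R3 : Subgroup G := K1 G ⊓ R.P x with hR3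
  have hR3pos : 0 < Nat.card R3 := Nat.card_pos
  have hq : Nat.card (R.P x) = qq R x := rfl
  have hR3dvd : Nat.card R3 ∣ 3 ^ mq := by
    rw [← hmq, ← hq]
    exact Subgroup.card_dvd_of_le inf_le_right
  obtain ⟨i3, hi3, hR3c⟩ := (Nat.dvd_prime_pow (by norm_num : Nat.Prime 3)).1 hR3dvd
  have hqR : qq R x = Nat.card R3 * 3 ^ (mq - i3) := by
    rw [hmq, hR3c, ← pow_add]
    congr 1
    omega
  have hstab : ∀ α : Sylow 3 G, Nat.card (stabilizer L α) = 3 ^ (mq - i3) * h' := by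
    intro α
    have h1 : Nat.card (stabilizer L α) * e' = Nat.card L := by
      rw [← hcardΩ, ← MulAction.index_stabilizer_of_transitive L α, Subgroup.card_mul_index]
    have h2 := hcardL
    rw [hSix.cardG1, hK1card, ← h1, hqR] at h2
    have h3 : (Nat.card R3 * 2 * e') * Nat.card (stabilizer L α) =
        (Nat.card R3 * 2 * e') * (3 ^ (mq - i3) * h') := by
      calc (Nat.card R3 * 2 * e') * Nat.card (stabilizer L α)
          = Nat.card (stabilizer L α) * e' * (2 * Nat.card R3) := by ring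
        _ = 2 * (Nat.card R3 * 3 ^ (mq - i3)) * 1 * e' * h' := h2
        _ = _ := by ring
    exact Nat.eq_of_mul_eq_mul_left (by positivity) h3
  -- the group `B_1`
  let B1 : Subgroup (thr G) := (stabilizer G x).subgroupOf (thr G)
  have hB1mem : ∀ g : thr G, g ∈ B1 ↔ (g : G) • x = x := fun g => Iff.rfl
  have hB1card : Nat.card B1 = qq R x * 1 * h' := by
    rw [← hSix.cardB1]
    refine Nat.card_congr ⟨fun g => ⟨(g.1 : G), g.2, g.1.2⟩,
      fun g => ⟨⟨g.1, g.2.2⟩, g.2.1⟩, fun _ => rfl, fun _ => rfl⟩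
  have hB1le : B1.map f ≤ stabilizer L α0 := by
    rintro _ ⟨g, hg, rfl⟩
    rw [mem_stabilizer_iff, hfsm]
    have hg' : (g : G) • x = x := hg
    apply Sylow.ext
    rw [hsmulα, hg', hα0]
  -- the kernel on `B_1`
  have hh2 : ¬ 2 ∣ h' := hI.od
  have hB1img : B1.map f = stabilizer L α0 := by
    let W : Subgroup G := stabilizer G x ⊓ K1 G
    have hR3W : R3 ≤ W := by
      intro g hg
      refine ⟨?_, hg.1⟩
      obtain ⟨⟨g', hg'⟩, -, he⟩ := hg.2
      rw [← he]
      exact hg'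
    have h1 : Nat.card R3 ∣ Nat.card W := Subgroup.card_dvd_of_le hR3W
    have h2 : Nat.card W ∣ 2 * Nat.card R3 := by
      rw [← hK1card]
      exact Subgroup.card_dvd_of_le inf_le_right
    have hWle : W ≤ stabilizer G x ⊓ thr G := fun g hg => ⟨hg.1, hg.2.2⟩
    have h3 : Nat.card W ∣ qq R x * 1 * h' := by
      rw [← hSix.cardB1]
      exact Subgroup.card_dvd_of_le hWle
    have h4 : ¬ 2 ∣ Nat.card W := by
      intro h
      have h5 := h.trans h3
      rw [mul_one] at h5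
      rcases (Nat.Prime.dvd_mul Nat.prime_two).1 h5 with h6 | h6
      · rw [hmq] at h6
        have h7 := Nat.Prime.dvd_of_dvd_pow Nat.prime_two h6
        norm_num at h7
      · exact hh2 h6
    have hW : Nat.card W = Nat.card R3 := by
      have h5 : Nat.Coprime (Nat.card W) 2 :=
        ((Nat.Prime.coprime_iff_not_dvd Nat.prime_two).2 h4).symm
      exact Nat.dvd_antisymm (h5.dvd_of_dvd_mul_left h2) h1
    -- cardinality of the image
    have h6 : Nat.card (B1.map f) * Nat.card W = Nat.card B1 := by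
      have h7 : Nat.card (f.comp B1.subtype).ker = Nat.card W := by
        refine Nat.card_congr ⟨fun g => ⟨((g.1 : thr G) : G), (hB1mem g.1.1).1 g.1.2,
            (hfker g.1.1).1 g.2⟩,
          fun g => ⟨⟨⟨g.1, g.2.2.2⟩, (hB1mem _).2 g.2.1⟩, (hfker ⟨g.1, g.2.2.2⟩).2 g.2.2⟩,
          fun _ => rfl, fun _ => rfl⟩
      rw [← h7, ← Subgroup.card_mul_index (f.comp B1.subtype).ker, mul_comm, Subgroup.index_ker,
        MonoidHom.range_comp, Subgroup.range_subtype]
    have h8 : Nat.card (B1.map f) = Nat.card (stabilizer L α0) := by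
      refine Nat.eq_of_mul_eq_mul_right hR3pos ?_
      have h9 : Nat.card (B1.map f) * Nat.card R3 = Nat.card B1 := by rw [← hW]; exact h6
      rw [h9, hB1card, hstab, hqR]
      ring
    exact Subgroup.eq_of_le_of_card_ge hB1le h8.ge
  have hTC0 : ThreeCyc (stabilizer L α0) := by
    obtain ⟨⟨c1, hc1, -, hc13, hc1gen⟩, -⟩ := hBA2 k G X (l + 1) R x (thr G)
    rw [← hB1img]
    refine ⟨((R.P x).subgroupOf (thr G)).map f, f ⟨c1, hc1.1⟩, ?_, ?_, ?_, ?_, ?_, ?_⟩
    · refine Subgroup.map_mono ?_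
      intro g hg
      obtain ⟨⟨g', hg'⟩, -, he⟩ := (hg : (g : G) ∈ R.P x)
      have he' : g' = (g : G) := he
      show (g : G) ∈ stabilizer G x
      rw [← he']
      exact hg'
    · exact ⟨⟨c1, hc1.1⟩, hc1.2, rfl⟩
    · have h1 : IsPGroup 3 ((R.P x).subgroupOf (thr G)) := hPg.comap_subtype
      exact h1.map _
    · rintro _ ⟨g, hg, rfl⟩ _ ⟨p, hp, rfl⟩
      refine ⟨g * p * g⁻¹, ?_, by rw [map_mul, map_mul, map_inv]⟩
      exact hPnorm (g : G) (p : G) hg hp
    · intro h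
      exact hc13 (h.trans ((orderOf_map_dvd f _).trans (by
        rw [Subgroup.orderOf_mk])))
    · rintro _ ⟨g, hg, rfl⟩
      obtain ⟨p, hp, n, he⟩ := hc1gen (g : G) ⟨g.2, hg⟩
      refine ⟨f ⟨p, hp.1⟩, ⟨⟨p, hp.1⟩, hp.2, rfl⟩, n, ?_⟩
      rw [← map_pow, ← map_mul]
      congr 1
      apply Subtype.ext
      exact he
  have hTC : ∀ α : Sylow 3 G, ThreeCyc (stabilizer L α) := by
    intro α
    obtain ⟨g, rfl⟩ := htrans0 α
    exact IGP_conj α0 (f g) hTC0
  -- the cyclic group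
  have hcthr : c ∈ thr G := hSix.c_mem.2
  let a : L := f ⟨c, hcthr⟩
  have hapow : ∀ (n : ℕ) (S : Sylow 3 G), a ^ n • S = c ^ n • S := by
    intro n S
    have h1 : a ^ n = f (⟨c, hcthr⟩ ^ n) := (map_pow f _ n).symm
    rw [h1, hfsm]
    rfl
  have haone : ∀ n : ℕ, a ^ n = 1 ↔ e' / 2 ∣ n := by
    intro n
    constructor
    · intro h
      rw [← hI.orb α0 n, ← hapow, h, one_smul]
    · intro h
      have h1 : a ^ n = f (⟨c, hcthr⟩ ^ n) := (map_pow f _ n).symm
      rw [h1]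
      refine (IGP_one_iff _).2 fun S => ?_
      exact (hI.orb S n).2 h
  have haord : orderOf a = e' / 2 := by
    refine Nat.dvd_antisymm ?_ ?_
    · exact orderOf_dvd_of_pow_eq_one ((haone _).2 dvd_rfl)
    · exact (haone _).1 (pow_orderOf_eq_one a)
  have hamem : ∀ b ∈ Subgroup.zpowers a, ∃ n : ℕ, b = a ^ n := by
    intro b hb
    have h1 : b ∈ Submonoid.powers a := mem_powers_iff_mem_zpowers.2 hb
    obtain ⟨n, hn⟩ := Submonoid.mem_powers_iff _ _ |>.1 h1
    exact ⟨n, hn.symm⟩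
  have hgen3 : GenThree L := IGP_three
  refine ⟨Subgroup.zpowers a, ⟨hfinL, inferInstance, inferInstance, ?_, htrans,
    IGP_noquot hgen3, ?_, ?_, ?_, hTC, ?_, ?_, ?_, ?_⟩, hgen3, ?_, ?_, ?_⟩
  · -- faithful
    infer_instance
  · rw [hcardΩ]; exact h4e
  · rw [hcardΩ]
    have := hSix.mod3
    omega
  · intro α
    rw [hcardΩ, hstab α]
    refine Nat.Coprime.mul_left ?_ hSix.num.cop
    refine Nat.Coprime.pow_left _ ?_
    rw [Nat.Prime.coprime_iff_not_dvd (by norm_num)]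
    have := hSix.mod3
    omega
  · infer_instance
  · rw [Nat.card_zpowers, haord, hcardΩ]
    exact Nat.mul_div_cancel' hI.ev
  · intro b hb ω hbω
    obtain ⟨n, rfl⟩ := hamem b hb
    rw [hapow, hI.orb] at hbω
    exact (haone n).2 hbω
  · -- the dihedral witness
    refine ⟨f ⟨s, hs⟩, ?_, ?_, ?_⟩
    · rw [← map_mul]
      have h1 : (⟨s, hs⟩ * ⟨s, hs⟩ : thr G) = ⟨c, hcthr⟩ ^ (e' / 2) := by
        apply Subtype.ext
        exact hss
      rw [h1, map_pow]
      exact (haone _).2 dvd_rfl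
    · intro hmem
      obtain ⟨n, hn⟩ := hamem _ hmem
      have h1 : f ((⟨c, hcthr⟩ ^ n)⁻¹ * ⟨s, hs⟩) = 1 := by
        rw [map_mul, map_inv, map_pow, hn]
        exact inv_mul_cancel _
      have h2 := (hfker _).1 h1
      refine hsne n _ h2 ?_
      show s = c ^ n * ((c ^ n)⁻¹ * s)
      group
    · rintro b hb ⟨m, hm⟩
      obtain ⟨n, rfl⟩ := hamem b hb
      -- odd part of `e'`
      obtain ⟨i, w, hw, hew⟩ := Nat.exists_eq_two_pow_mul_odd he0.ne'
      set E : ℕ := w ^ (Nat.totient (2 ^ m)) with hE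
      have hEmod : E ≡ 1 [MOD 2 ^ m] :=
        Nat.ModEq.pow_totient (hw.coprime_two_right.pow_right m)
      have hwE : w ∣ E := dvd_pow_self w (Nat.totient_pos.2 (by positivity)).ne'
      have h1 : (a ^ n) ^ E = a ^ n := by
        have h2 := pow_eq_pow_of_modEq hEmod hm
        rw [h2, pow_one]
      have h3 : (c ^ (n * E)) ^ (2 ^ i) = 1 := by
        rw [← pow_mul]
        refine orderOf_dvd_iff_pow_eq_one.1 ?_
        rw [hSix.c_ord, one_mul, hew]
        obtain ⟨w', hw'⟩ := hwE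
        rw [hw']
        exact ⟨n * w', by ring⟩
      have h4 := hsinv (c ^ (n * E))
        (Subgroup.mem_zpowers_iff.2 ⟨((n * E : ℕ) : ℤ), zpow_natCast _ _⟩) ⟨i, h3⟩
      have h5 : a ^ n = f (⟨c, hcthr⟩ ^ (n * E)) := by
        rw [map_pow, pow_mul]
        exact h1.symm
      rw [h5, ← map_mul, ← map_inv, ← map_mul, ← map_inv]
      congr 1
      apply Subtype.ext
      exact h4
  · exact IGP_normal.map _ (MonoidHom.rangeRestrict_surjective _)
  · have h1 := congrArg (Subgroup.map (ph G).rangeRestrict) hSix.zp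
    rw [Subgroup.map_commutator, Subgroup.map_top_of_surjective _
      (MonoidHom.rangeRestrict_surjective _)] at h1
    exact h1
  · intro α
    refine ⟨mq - i3, ?_, hstab α⟩
    rw [hqR]
    exact Dvd.intro_left _ rfl

end

end Pool.Agent.helper75.AU
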