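import Pool.Agent.helper53.AU.SpecG2

/-!
Project au, module P7: the order of `C(τ) ∩ L_α` is a power of 3.
-/

namespace Pool.Agent.helper53.AU

open scoped Classical

theorem P7 (hP1 : P1_stmt) (hP4 : P4_stmt) (hP6 : P6_stmt) (hSY : SY_stmt) (hSN : SN_stmt) :
    P7_stmt := by
  intro L Ω _ _ A hPL τ' α hτ'
  have hfinL := hPL.finL
  have hfinΩ := hPL.finΩ
  obtain ⟨τ, hτA, hτ⟩ := (hP1 L Ω A hPL).1
  obtain ⟨t, ht⟩ := hPL.dih
  obtain ⟨-, -, -, hreg, hnorm⟩ := hP6 L Ω A hPL τ t hτA hτ ht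
  obtain ⟨ν, -, hν, -, -, -⟩ := hP4 L Ω A hPL
  -- reduce to `τ ∈ A`
  rw [hν τ' α hτ', ← hν τ α hτ]
  -- the subgroup
  let H : Subgroup L := MulAction.stabilizer L α ⊓ Subgroup.centralizer {τ}
  have hmem : ∀ g : L, g ∈ H ↔ (g • α = α ∧ g * τ = τ * g) := by
    intro g
    show g ∈ MulAction.stabilizer L α ⊓ Subgroup.centralizer {τ} ↔ _
    rw [Subgroup.mem_inf, MulAction.mem_stabilizer_iff, Subgroup.mem_centralizer_singleton_iff]
  have hcard : Nat.card {g : L // g • α = α ∧ g * τ = τ * g} = Nat.card H :=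
    Nat.card_congr (Equiv.subtypeEquivRight fun g => (hmem g).symm)
  rw [hcard]
  refine ⟨_, Nat.eq_prime_pow_of_unique_prime_dvd Nat.card_pos.ne' ?_⟩
  intro r hr hdvd
  by_contra hr3
  -- `r` is odd
  have hr2 : r ≠ 2 := by
    rintro rfl
    have h1 : Nat.card H ∣ Nat.card (MulAction.stabilizer L α) :=
      Subgroup.card_dvd_of_le inf_le_left
    have h2 : 2 ∣ Nat.card (MulAction.stabilizer L α) := hdvd.trans h1
    have h3 : 2 ∣ Nat.card Ω := (by norm_num : 2 ∣ 4).trans hPL.four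
    have h4 := Nat.dvd_gcd h2 h3
    rw [(hPL.copr α)] at h4
    norm_num at h4
  have hr5 : 5 ≤ r := by
    by_contra h
    have h1 : r < 5 := by omega
    have h2 := hr.two_le
    interval_cases r
    · exact hr2 rfl
    · exact hr3 rfl
    · exact absurd hr (by norm_num)
  have hfact : Fact r.Prime := ⟨hr⟩
  obtain ⟨⟨x, hxH⟩, hx⟩ := exists_prime_orderOf_dvd_card' (G := H) r hdvd
  have hxo : orderOf x = r := by
    rw [← hx]
    exact (Subgroup.orderOf_mk x hxH).symm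
  obtain ⟨hxα, hxτ⟩ := (hmem x).1 hxH
  have hxp : (orderOf x).Prime := by rw [hxo]; exact hr
  obtain ⟨g, hg, hgx⟩ := hSN L Ω A hPL x hxp (by rw [hxo]; exact hr5)
  -- `g⁻¹ x g` is a power of `x`
  have hg' : g⁻¹ * x * g ∈ Subgroup.zpowers x := by
    have h1 : Subgroup.zpowers (g * x * g⁻¹) = Subgroup.zpowers x := by
      refine Subgroup.eq_of_le_of_card_ge ?_ ?_
      · rw [Subgroup.zpowers_le]; exact hg
      · rw [Nat.card_zpowers, Nat.card_zpowers]
        have h2 : orderOf (g * x * g⁻¹) = orderOf x := by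
          have := (MulAut.conj g).orderOf_eq x
          simpa [MulAut.conj_apply] using this
        rw [h2]
    have h3 : x ∈ Subgroup.zpowers (g * x * g⁻¹) := by rw [h1]; exact Subgroup.mem_zpowers x
    obtain ⟨k, hk⟩ := Subgroup.mem_zpowers_iff.1 h3
    rw [Subgroup.mem_zpowers_iff]
    refine ⟨k, ?_⟩
    have h4 : (g * x * g⁻¹) ^ k = g * x ^ k * g⁻¹ := conj_zpow
    rw [h4] at hk
    calc x ^ k = g⁻¹ * (g * x ^ k * g⁻¹) * g := by group
      _ = g⁻¹ * x * g := by rw [hk]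
  -- `g α` is fixed by `x`
  have hzfix : ∀ y ∈ Subgroup.zpowers x, y • α = α := by
    intro y hy
    have h1 : Subgroup.zpowers x ≤ MulAction.stabilizer L α := by
      rw [Subgroup.zpowers_le]; exact hxα
    exact h1 hy
  have hxg : x • (g • α) = g • α := by
    have h1 := hzfix _ hg'
    have h2 : x • (g • α) = g • ((g⁻¹ * x * g) • α) := by
      rw [← mul_smul, ← mul_smul]
      congr 1
      group
    rw [h2, h1]
  obtain ⟨⟨dd, hdD⟩, hd, huniq⟩ := hreg α (g • α)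
  have hdα : dd • α = g • α := hd
  -- `x` commutes with `dd`
  have hxd : x * dd * x⁻¹ = dd := by
    have h1 : x * dd * x⁻¹ ∈ A ⊔ Subgroup.zpowers t := hnorm x hxτ dd hdD
    have h2 : (x * dd * x⁻¹) • α = g • α := by
      have h3 : x⁻¹ • α = α := by
        rw [inv_smul_eq_iff]; exact hxα.symm
      rw [mul_smul, mul_smul, h3, hdα, hxg]
    have h4 := huniq ⟨x * dd * x⁻¹, h1⟩ h2
    exact congrArg Subtype.val h4
  have hcomm : x * dd = dd * x := by
    have := congrArg (fun y => y * x) hxd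
    simpa using this
  -- the element of the stabiliser
  have hs1 : (dd⁻¹ * g) • α = α := by
    rw [mul_smul, ← hdα, inv_smul_smul]
  have hs2 : (dd⁻¹ * g) * x * (dd⁻¹ * g)⁻¹ ∈ Subgroup.zpowers x := by
    obtain ⟨k, hk⟩ := Subgroup.mem_zpowers_iff.1 hg
    have h1 : (dd⁻¹ * g) * x * (dd⁻¹ * g)⁻¹ = dd⁻¹ * (g * x * g⁻¹) * dd := by group
    rw [h1, ← hk]
    have h2 : Commute x dd := hcomm
    have h3 : x ^ k * dd = dd * x ^ k := (h2.zpow_left k).eq
    rw [mul_assoc, h3, ← mul_assoc, inv_mul_cancel, one_mul]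
    exact Subgroup.mem_zpowers_iff.2 ⟨k, rfl⟩
  have hs3 := (hSY L Ω A hPL).2 α x (dd⁻¹ * g) hxα hs1 hxp (by rw [hxo]; exact hr3) hs2
  apply hgx
  have h5 : g = dd * (dd⁻¹ * g) := by group
  rw [h5, mul_assoc, hs3, ← mul_assoc, ← hcomm, mul_assoc]

end Pool.Agent.helper53.AU
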