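import Pool.Agent.helper2.AU.SpecX

/-!
Project au, module XA: every place of the fixed field lies below a place of `F`.
-/

namespace Pool.Agent.helper53.AU

open scoped Classical IntermediateField
open Polynomial (aeval)

noncomputable section

theorem XA (hXF : XF_stmt) (hXB : XB_stmt) (hQR5 : QR5_stmt) (hQV0 : QV0_stmt) : XA_stmt := by
  intro k F _ _ _ _ hF H _ Q
  have hE := (hXF k F hF H).1
  obtain ⟨π, e, hbel, -⟩ := hXB k F H
  obtain ⟨C, hC⟩ := hQR5 k (IntermediateField.fixedField H) hE Q
  obtain ⟨u, hureg, hu0, huord⟩ := hC (max C 1) (le_max_left _ _)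
  have hn1 : 1 ≤ max C 1 := le_max_right _ _
  have hne : ¬ ∀ P : Place k F, P.Ge 0 (u : F) := by
    intro hall
    obtain ⟨c, hc⟩ := hQV0 k F hF (u : F) hall
    have h1 : u = algebraMap k (IntermediateField.fixedField H) c := by
      apply Subtype.ext
      rw [hc]
      rfl
    have hc0 : c ≠ 0 := by
      rintro rfl
      exact hu0 (by rw [h1, map_zero])
    have h2 := Q.ord_const c hc0
    rw [← h1, huord] at h2
    omega
  push Not at hne
  obtain ⟨P, hP⟩ := hne
  have huF : (u : F) ≠ 0 := by
    intro h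
    exact hu0 (Subtype.ext h)
  have hPord : P.ord (u : F) < 0 := by
    rw [Place.ge_iff huF] at hP
    omega
  obtain ⟨he, hb⟩ := hbel P
  have hQP : π P = Q := by
    by_contra hne
    have h1 := (hureg (π P) hne).le hu0
    have h2 := hb u
    have h3 : (0 : ℤ) ≤ (e P : ℤ) * (π P).ord u := mul_nonneg (Int.natCast_nonneg _) h1
    omega
  refine ⟨P, e P, he, fun f => ?_⟩
  rw [← hQP]
  exact hb f

end

end Pool.Agent.helper53.AU
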